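import Mathlib
import Pool.Agent.H892.KT.Stm

/-!
# Composition of birational germs
-/

set_option autoImplicit false

open Filter Topology Set

namespace Pool.Agent.H294.KT

open Pool.Agent.H892.KT

theorem t_BIRCOMP (h1 : S_RATCOMP) : S_BIRCOMP := by
  intro τ τ' p h h'
  obtain ⟨e, hp, he, hr, hs⟩ := h
  obtain ⟨e', hp', he', hr', hs'⟩ := h'
  have hτ : τ p = e p := he.self_of_nhds
  rw [hτ] at hp' he' hr' hs'
  refine ⟨e.trans e', ?_, ?_, ?_, ?_⟩
  · rw [OpenPartialHomeomorph.trans_source]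
    exact ⟨hp, hp'⟩
  · have hc : Tendsto e (𝓝 p) (𝓝 (e p)) := e.continuousAt hp
    filter_upwards [he, hc.eventually he'] with q h2 h3
    rw [h2, h3]
    rfl
  · exact h1 e p e' hp hr hr'
  · have h2 : e'.symm (e' (e p)) = e p := e'.left_inv hp'
    have h3 := h1 e'.symm (e' (e p)) e.symm (e'.map_source hp') hs' (by rw [h2]; exact hs)
    exact h3

end Pool.Agent.H294.KT
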